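import Pool.Agent.W314.BA.Lat

/-! MP_f2742c_an, part LA: measurability and invariance on the fundamental set. -/

open MeasureTheory Set Filter Topology Real
open scoped ENNReal NNReal

namespace Pool.Agent.W179.BA

open Pool.Agent.W314.BA

variable {Γ : Subgroup G} {σ : G → ℤ} {F : Set G}

theorem cntΓ (h : LatD Γ σ F) : Countable Γ := by
  have h1 : (Γ : Set G) ⊆ ⋃ n : ℕ, {γ : G | γ ∈ Γ ∧ hh γ ≤ n} := by
    intro γ hγ
    obtain ⟨n, hn⟩ := exists_nat_ge (hh γ)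
    exact mem_iUnion.2 ⟨n, hγ, hn⟩
  have h2 : (Γ : Set G).Countable := (countable_iUnion fun n : ℕ => (h.fin (n : ℝ)).countable).mono h1
  exact h2.to_subtype

theorem redL_meas (h : LatD Γ σ F) : Measurable (redL h) := by
  have := cntΓ h
  rintro A ⟨A0, hA0, rfl⟩
  have h1 : redL h ⁻¹' (Subtype.val ⁻¹' A0) =
      ⋃ γ : Γ, (fun g : G => g * (γ : G)) ⁻¹' (A0 ∩ F) := by
    ext g
    simp only [mem_preimage, mem_iUnion, mem_inter_iff]
    constructor
    · intro hg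
      exact ⟨gamL h g, hg, gamL_mem h g⟩
    · rintro ⟨γ, hγ1, hγ2⟩
      rw [redL_of_mem h g γ hγ2]
      exact hγ1
  rw [h1]
  exact MeasurableSet.iUnion fun γ => (hm_mul_right (γ : G)).measurable (hA0.inter h.F_meas)

theorem hmF_top (h : LatD Γ σ F) : hm F ≠ ⊤ := by
  obtain ⟨R, hR⟩ := h.F_bdd
  refine ((measure_mono (hR.trans (Bx_mono (le_max_left R 1)))).trans_lt ?_).ne
  rw [hm_Bx (le_max_right R 1)]
  exact ENNReal.ofReal_lt_top

theorem hmF_ne (h : LatD Γ σ F) : hm F ≠ 0 := by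
  have := cntΓ h
  intro h0
  have h1 : (univ : Set G) ⊆ ⋃ γ : Γ, (fun g : G => g * (γ : G)) ⁻¹' F := by
    intro g _
    exact mem_iUnion.2 ⟨gamL h g, gamL_mem h g⟩
  have h2 : hm (⋃ γ : Γ, (fun g : G => g * (γ : G)) ⁻¹' F) = 0 := by
    rw [measure_iUnion_null_iff]
    intro γ
    rw [(hm_mul_right (γ : G)).measure_preimage h.F_meas.nullMeasurableSet, h0]
  have h3 : hm (Bx 2) ≤ 0 := by
    rw [← h2]
    exact measure_mono ((subset_univ _).trans h1)
  rw [hm_Bx (by norm_num)] at h3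
  norm_num at h3

theorem muL_prob (h : LatD Γ σ F) : IsProbabilityMeasure (muL F) := by
  constructor
  unfold muL
  rw [Measure.smul_apply, (MeasurableEmbedding.subtype_coe h.F_meas).comap_apply, image_univ,
    Subtype.range_coe, smul_eq_mul]
  exact ENNReal.inv_mul_cancel (hmF_ne h) (hmF_top h)

/-- the invariance, for subsets of the fundamental set -/
theorem inv_set (h : LatD Γ σ F) (g : G) {B : Set G} (hB : MeasurableSet B) (hBF : B ⊆ F) :
    hm {d | d ∈ F ∧ ∃ γ : Γ, g * d * (γ : G) ∈ B} = hm B := by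
  have := cntΓ h
  have hφ : ∀ γ : Γ, MeasurePreserving (fun d : G => g * d * (γ : G)) hm hm := fun γ =>
    (hm_mul_right (γ : G)).comp (hm_mul_left g)
  have hψ : ∀ γ : Γ, MeasurePreserving (fun d : G => g⁻¹ * d * (γ : G)⁻¹) hm hm := fun γ =>
    (hm_mul_right ((γ : G)⁻¹)).comp (hm_mul_left g⁻¹)
  have e1 : {d | d ∈ F ∧ ∃ γ : Γ, g * d * (γ : G) ∈ B} =
      ⋃ γ : Γ, (F ∩ (fun d : G => g * d * (γ : G)) ⁻¹' B) := by
    ext d
    simp only [mem_ofPred_eq, mem_iUnion, mem_inter_iff, mem_preimage]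
    constructor
    · rintro ⟨h1, γ, h2⟩
      exact ⟨γ, h1, h2⟩
    · rintro ⟨γ, h1, h2⟩
      exact ⟨h1, γ, h2⟩
  have e2 : B = ⋃ γ : Γ, ((fun d : G => g⁻¹ * d * (γ : G)⁻¹) ⁻¹' F ∩ B) := by
    ext w
    simp only [mem_iUnion, mem_inter_iff, mem_preimage]
    constructor
    · intro hw
      refine ⟨(gamL h (g⁻¹ * w))⁻¹, ?_, hw⟩
      rw [Subgroup.coe_inv, inv_inv]
      exact gamL_mem h _
    · rintro ⟨γ, -, hw⟩
      exact hw
  have d1 : Pairwise (Function.onFun Disjoint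
      fun γ : Γ => (F ∩ (fun d : G => g * d * (γ : G)) ⁻¹' B)) := by
    intro γ γ' hne
    rw [Function.onFun, Set.disjoint_left]
    rintro d ⟨-, h1⟩ ⟨-, h2⟩
    apply hne
    rw [gamL_uniq h (g * d) γ (hBF h1), gamL_uniq h (g * d) γ' (hBF h2)]
  have d2 : Pairwise (Function.onFun Disjoint
      fun γ : Γ => ((fun d : G => g⁻¹ * d * (γ : G)⁻¹) ⁻¹' F ∩ B)) := by
    intro γ γ' hne
    rw [Function.onFun, Set.disjoint_left]
    rintro w ⟨h1, -⟩ ⟨h2, -⟩
    apply hne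
    have k1 : γ⁻¹ = gamL h (g⁻¹ * w) := gamL_uniq h (g⁻¹ * w) γ⁻¹ (by
      rw [Subgroup.coe_inv]; exact h1)
    have k2 : γ'⁻¹ = gamL h (g⁻¹ * w) := gamL_uniq h (g⁻¹ * w) γ'⁻¹ (by
      rw [Subgroup.coe_inv]; exact h2)
    exact inv_injective (k1.trans k2.symm)
  have m1 : ∀ γ : Γ, MeasurableSet (F ∩ (fun d : G => g * d * (γ : G)) ⁻¹' B) := fun γ =>
    h.F_meas.inter ((hφ γ).measurable hB)
  have m2 : ∀ γ : Γ, MeasurableSet ((fun d : G => g⁻¹ * d * (γ : G)⁻¹) ⁻¹' F ∩ B) := fun γ =>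
    ((hψ γ).measurable h.F_meas).inter hB
  rw [e1, measure_iUnion d1 m1]
  conv_rhs => rw [e2, measure_iUnion d2 m2]
  congr 1
  funext γ
  rw [← (hφ γ).measure_preimage (m2 γ).nullMeasurableSet]
  congr 1
  ext d
  simp only [mem_inter_iff, mem_preimage]
  have e : g⁻¹ * (g * d * (γ : G)) * (γ : G)⁻¹ = d := by group
  rw [e]

theorem main : LatAStmt := by
  intro Γ σ F h
  refine ⟨muL_prob h, redL_meas h, fun g => ?_⟩
  have hT : Measurable (fun d : F => redL h (g * (d : G))) :=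
    (redL_meas h).comp ((hm_mul_left g).measurable.comp measurable_subtype_coe)
  refine ⟨hT, ?_⟩
  ext A hA
  rw [Measure.map_apply hT hA]
  obtain ⟨A0, hA0, rfl⟩ := hA
  unfold muL
  rw [Measure.smul_apply, Measure.smul_apply,
    (MeasurableEmbedding.subtype_coe h.F_meas).comap_apply,
    (MeasurableEmbedding.subtype_coe h.F_meas).comap_apply]
  congr 1
  have e1 : (Subtype.val '' (Subtype.val ⁻¹' A0 : Set F)) = F ∩ A0 := Subtype.image_preimage_coe _ _
  have e2 : (Subtype.val '' ((fun d : F => redL h (g * (d : G))) ⁻¹' (Subtype.val ⁻¹' A0 : Set F))) =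
      {d | d ∈ F ∧ ∃ γ : Γ, g * d * (γ : G) ∈ F ∩ A0} := by
    ext d
    simp only [mem_image, mem_preimage, mem_ofPred_eq, mem_inter_iff]
    constructor
    · rintro ⟨d', hd', rfl⟩
      exact ⟨d'.2, gamL h (g * (d' : G)), gamL_mem h _, hd'⟩
    · rintro ⟨hd, γ, h1, h2⟩
      refine ⟨⟨d, hd⟩, ?_, rfl⟩
      show ((redL h (g * d) : F) : G) ∈ A0
      rw [redL_of_mem h (g * d) γ h1]
      exact h2
  rw [e1, e2]
  exact inv_set h g (h.F_meas.inter hA0) inter_subset_left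

end Pool.Agent.W179.BA
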